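import Pool.Agent.Helper59.Wav.Defs

/-!
# Module E3 of MP_d629b1_an: a circulant unitary
-/

set_option autoImplicit false

open MeasureTheory Matrix
open scoped ComplexConjugate ContDiff

noncomputable section

namespace Wav

/-- circulant unitary -/
def circ (p : ℕ) (z : ℝ) : ℂ :=
  (1 / p : ℂ) * ∑ m ∈ Finset.range p, Complex.exp (2 * Real.pi * Complex.I * (m * z / p : ℝ))

/-- `exp (2πi t)` -/
def ce (t : ℝ) : ℂ := Complex.exp (2 * Real.pi * Complex.I * (t : ℝ))

lemma ce_add (s t : ℝ) : ce (s + t) = ce s * ce t := by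
  rw [ce, ce, ce, ← Complex.exp_add]
  congr 1
  push_cast
  ring

lemma ce_conj (t : ℝ) : conj (ce t) = ce (-t) := by
  rw [ce, ce, ← Complex.exp_conj]
  congr 1
  have h2 : conj (2 : ℂ) = 2 := Complex.conj_ofNat 2
  simp [h2]

lemma ce_zero : ce 0 = 1 := by simp [ce]

lemma ce_int (k : ℤ) : ce (k : ℝ) = 1 := by
  rw [ce, Complex.exp_eq_one_iff]
  exact ⟨k, by push_cast; ring⟩

lemma ce_eq_one_iff (t : ℝ) : ce t = 1 ↔ ∃ k : ℤ, t = k := by
  constructor
  · intro h
    rw [ce, Complex.exp_eq_one_iff] at h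
    obtain ⟨k, hk⟩ := h
    refine ⟨k, ?_⟩
    have h2 : (2 * Real.pi * Complex.I : ℂ) ≠ 0 := by
      simp [Real.pi_ne_zero]
    have h3 : (t : ℂ) = (k : ℂ) := by
      apply mul_left_cancel₀ h2
      rw [hk]; ring
    exact_mod_cast h3
  · rintro ⟨k, rfl⟩
    exact ce_int k

lemma ce_pow (t : ℝ) (k : ℕ) : ce t ^ k = ce (k * t) := by
  rw [ce, ce, ← Complex.exp_nat_mul]
  congr 1
  push_cast
  ring

lemma sum_ce {p : ℕ} (hp : 0 < p) (d : ℤ) :
    ∑ k ∈ Finset.range p, ce (k * (d / p : ℝ)) = if (p : ℤ) ∣ d then (p : ℂ) else 0 := by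
  have hp' : (p : ℝ) ≠ 0 := by positivity
  split_ifs with h
  · obtain ⟨c, rfl⟩ := h
    have : ∀ k ∈ Finset.range p, ce (k * (((p : ℤ) * c : ℤ) / p : ℝ)) = 1 := by
      intro k _
      have h1 : (k * (((p : ℤ) * c : ℤ) / p : ℝ) : ℝ) = ((k * c : ℤ) : ℝ) := by
        push_cast
        field_simp
      rw [h1, ce_int]
    rw [Finset.sum_congr rfl this]
    simp
  · have hne : ce (d / p : ℝ) ≠ 1 := by
      intro h1
      rw [ce_eq_one_iff] at h1
      obtain ⟨c, hc⟩ := h1
      apply h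
      refine ⟨c, ?_⟩
      have h2 : (d : ℝ) = p * c := by
        field_simp at hc
        linarith
      exact_mod_cast h2
    have hpow : ce (d / p : ℝ) ^ p = 1 := by
      rw [ce_pow]
      have h1 : ((p : ℝ) * (d / p) : ℝ) = (d : ℝ) := by field_simp
      rw [h1, ce_int]
    have h1 : ∑ k ∈ Finset.range p, ce (k * (d / p : ℝ)) =
        ∑ k ∈ Finset.range p, ce (d / p : ℝ) ^ k :=
      Finset.sum_congr rfl fun k _ => (ce_pow _ k).symm
    rw [h1, geom_sum_eq hne, hpow, sub_self, zero_div]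

lemma circ_eq (p : ℕ) (z : ℝ) :
    circ p z = (1 / p : ℂ) * ∑ m ∈ Finset.range p, ce (m * z / p) := rfl

theorem circ_conj (p : ℕ) (z : ℝ) : conj (circ p z) = circ p (-z) := by
  rw [circ_eq, circ_eq, map_mul, map_sum]
  congr 1
  · simp
  · apply Finset.sum_congr rfl
    intro m _
    rw [ce_conj]
    congr 1
    ring

theorem circ_int {p : ℕ} (hp : 0 < p) (z : ℤ) : circ p z = if (p : ℤ) ∣ z then 1 else 0 := by
  have hp' : (p : ℂ) ≠ 0 := by exact_mod_cast hp.ne'
  rw [circ_eq]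
  have h1 : ∑ m ∈ Finset.range p, ce (m * (z : ℝ) / p) =
      ∑ k ∈ Finset.range p, ce (k * (z / p : ℝ)) := by
    apply Finset.sum_congr rfl
    intro m _
    congr 1
    ring
  rw [h1, sum_ce hp]
  split_ifs with h
  · field_simp
  · simp

theorem circ_mul {p : ℕ} (hp : 0 < p) (x y : ℝ) (k0 : ℤ) :
    ∑ k ∈ Finset.range p, circ p (x - (k0 + k)) * conj (circ p (y - (k0 + k))) =
      circ p (x - y) := by
  have hp' : (p : ℂ) ≠ 0 := by exact_mod_cast hp.ne'
  have h1 : ∀ k ∈ Finset.range p, circ p (x - (k0 + k)) * conj (circ p (y - (k0 + k))) =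
      (1 / p : ℂ) * (1 / p : ℂ) * ∑ m ∈ Finset.range p, ∑ n ∈ Finset.range p,
        ce (m * x / p) * ce (-(n * y / p)) * ce (((n : ℤ) - m : ℤ) * (k0 / p : ℝ)) *
          ce (k * ((((n : ℤ) - m : ℤ) : ℝ) / p)) := by
    intro k _
    rw [circ_conj, circ_eq, circ_eq]
    rw [show ∀ a b c d : ℂ, a * b * (c * d) = a * c * (b * d) from fun a b c d => by ring]
    rw [Finset.sum_mul_sum]
    congr 1
    apply Finset.sum_congr rfl
    intro m _
    apply Finset.sum_congr rfl
    intro n _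
    rw [← ce_add, ← ce_add, ← ce_add, ← ce_add]
    congr 1
    push_cast
    ring
  rw [Finset.sum_congr rfl h1, ← Finset.mul_sum, Finset.sum_comm]
  have h2 : ∀ m ∈ Finset.range p, ∑ k ∈ Finset.range p, ∑ n ∈ Finset.range p,
        ce (m * x / p) * ce (-(n * y / p)) * ce (((n : ℤ) - m : ℤ) * (k0 / p : ℝ)) *
          ce (k * ((((n : ℤ) - m : ℤ) : ℝ) / p)) = (p : ℂ) * ce (m * (x - y) / p) := by
    intro m hm
    rw [Finset.sum_comm]
    have h3 : ∀ n ∈ Finset.range p, ∑ k ∈ Finset.range p,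
        ce (m * x / p) * ce (-(n * y / p)) * ce (((n : ℤ) - m : ℤ) * (k0 / p : ℝ)) *
          ce (k * ((((n : ℤ) - m : ℤ) : ℝ) / p)) =
        if n = m then (p : ℂ) * ce (m * (x - y) / p) else 0 := by
      intro n hn
      rw [← Finset.mul_sum, sum_ce hp]
      have hiff : (p : ℤ) ∣ ((n : ℤ) - m) ↔ n = m := by
        rw [Finset.mem_range] at hm hn
        constructor
        · intro h
          have h4 := Int.eq_zero_of_abs_lt_dvd h (by rw [abs_lt]; constructor <;> omega)
          omega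
        · rintro rfl
          simp
      by_cases hnm : n = m
      · subst hnm
        rw [if_pos (hiff.mpr rfl), if_pos rfl]
        have h5 : ce (((n : ℤ) - n : ℤ) * (k0 / p : ℝ)) = 1 := by
          simp [ce_zero]
        rw [h5, mul_one, ← ce_add, mul_comm]
        congr 2
        ring
      · rw [if_neg (fun h => hnm (hiff.mp h)), if_neg hnm, mul_zero]
    rw [Finset.sum_congr rfl h3, Finset.sum_ite_eq' (Finset.range p) m, if_pos hm]
  rw [Finset.sum_congr rfl h2, ← Finset.mul_sum, circ_eq, ← mul_assoc]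
  congr 1
  field_simp

theorem circ_smooth (p : ℕ) : ContDiff ℝ ∞ (circ p) := by
  have h : circ p = fun z : ℝ => (1 / p : ℂ) * ∑ m ∈ Finset.range p,
      Complex.exp (2 * Real.pi * Complex.I * (m * z / p : ℝ)) := rfl
  rw [h]
  apply ContDiff.mul contDiff_const
  apply ContDiff.sum
  intro m _
  apply ContDiff.cexp
  apply ContDiff.mul contDiff_const
  apply Complex.ofRealCLM.contDiff.comp
  exact (contDiff_const.mul contDiff_id).div_const _

end Wav
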