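import Pool.Agent.Helper54.Wav.Defs

/-!
# Module W9 of MP_d629b1_an: adapted norm of an expansive matrix
-/

set_option autoImplicit false

open MeasureTheory Matrix Module
open scoped ComplexConjugate ContDiff FourierTransform NNReal ENNReal Topology

namespace Pool.Agent.Helper54.Wav

attribute [local instance] Matrix.linftyOpNormedAddCommGroup Matrix.linftyOpNormedRing
  Matrix.linftyOpNormedAlgebra Matrix.linftyOpNormedSpace

theorem det_of_expansive {n : ℕ} (hn : 0 < n) (A : Matrix (Fin n) (Fin n) ℝ) (hA : Expansive A) :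
    1 < |A.det| := by
  set M : Matrix (Fin n) (Fin n) ℂ := A.map (algebraMap ℝ ℂ) with hM
  have hdet : M.det = algebraMap ℝ ℂ A.det := by
    rw [hM]
    exact (RingHom.map_det (algebraMap ℝ ℂ) A).symm
  have h1 : |A.det| = ‖M.det‖ := by
    rw [hdet]; simp
  rw [h1, Matrix.det_eq_prod_roots_charpoly]
  have hcard : Multiset.card M.charpoly.roots = n := by
    have h := (IsAlgClosed.splits M.charpoly).natDegree_eq_card_roots
    rw [← h, Matrix.charpoly_natDegree_eq_dim, Fintype.card_fin]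
  have hroots : ∀ z ∈ M.charpoly.roots, 1 < ‖z‖ := by
    intro z hz
    apply hA z
    exact Polynomial.isRoot_of_mem_roots hz
  have key : ∀ s : Multiset ℂ, (∀ z ∈ s, 1 < ‖z‖) → s ≠ 0 → 1 < ‖s.prod‖ := by
    intro s
    induction s using Multiset.induction with
    | empty => intro _ h; exact absurd rfl h
    | cons a s ih =>
      intro h _
      rw [Multiset.prod_cons, norm_mul]
      have ha : 1 < ‖a‖ := h a (Multiset.mem_cons_self a s)
      by_cases hs : s = 0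
      · subst hs; simpa using ha
      · have h2 := ih (fun z hz => h z (Multiset.mem_cons_of_mem hz)) hs
        nlinarith
  apply key _ hroots
  intro h
  rw [h] at hcard
  simp at hcard
  omega

/-- some power of the inverse of an expansive matrix is a contraction -/
theorem exists_pow_inv_norm_lt {n : ℕ} (hn : 0 < n) (A : Matrix (Fin n) (Fin n) ℝ)
    (hA : Expansive A) : ∃ J : ℕ, 0 < J ∧ ‖((Aᵀ)⁻¹) ^ J‖ < 1 := by
  have : Nonempty (Fin n) := ⟨⟨0, hn⟩⟩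
  set M : Matrix (Fin n) (Fin n) ℂ := (Aᵀ).map (algebraMap ℝ ℂ) with hM
  have hchar : M.charpoly = (A.map (algebraMap ℝ ℂ)).charpoly := by
    have : M = (A.map (algebraMap ℝ ℂ))ᵀ := by rw [hM, Matrix.transpose_map]
    rw [this, Matrix.charpoly_transpose]
  have hdetA : A.det ≠ 0 := by
    intro h
    have := det_of_expansive hn A hA
    rw [h] at this; simp at this; linarith
  have hdetT : (Aᵀ).det ≠ 0 := by rwa [Matrix.det_transpose]
  have hUT : IsUnit (Aᵀ).det := isUnit_iff_ne_zero.mpr hdetT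
  have hdetM : M.det = algebraMap ℝ ℂ (Aᵀ).det := by
    rw [hM]
    exact (RingHom.map_det (algebraMap ℝ ℂ) Aᵀ).symm
  have hUM : IsUnit M.det := by
    rw [hdetM]; exact hUT.map _
  have hspec : ∀ k ∈ spectrum ℂ M⁻¹, ‖k‖₊ < 1 := by
    intro k hk
    have hu : IsUnit M := (Matrix.isUnit_iff_isUnit_det M).mpr hUM
    obtain ⟨u, hu'⟩ := hu
    have hinv : M⁻¹ = (↑(u⁻¹) : Matrix (Fin n) (Fin n) ℂ) := by
      rw [← hu', Matrix.coe_units_inv]
    rw [hinv] at hk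
    have hk0 : k ≠ 0 := spectrum.ne_zero_of_mem_of_unit hk
    have hk1 : k⁻¹ ∈ spectrum ℂ (u : Matrix (Fin n) (Fin n) ℂ) := by
      have h3 := spectrum.inv_mem_iff (r := Units.mk0 k hk0) (a := u⁻¹)
      simp only [Units.val_mk0, inv_inv] at h3
      have h4 := h3.1 hk
      simpa using h4
    rw [hu', Matrix.mem_spectrum_iff_isRoot_charpoly, hchar] at hk1
    have h5 := hA _ hk1
    rw [norm_inv] at h5
    have h6 : 0 < ‖k‖ := norm_pos_iff.mpr hk0
    have h7 : ‖k‖ < 1 := by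
      by_contra hcon
      push Not at hcon
      have := inv_le_one_of_one_le₀ hcon
      linarith
    exact_mod_cast h7
  have hrad : spectralRadius ℂ M⁻¹ < 1 := by
    have := spectrum.spectralRadius_lt_of_forall_lt (a := M⁻¹) (r := 1) (fun k hk => hspec k hk)
    simpa using this
  have hG := spectrum.pow_nnnorm_pow_one_div_tendsto_nhds_spectralRadius M⁻¹
  have hev := (hG.eventually (gt_mem_nhds hrad)).and (Filter.eventually_gt_atTop 0)
  obtain ⟨J, hJ, hJ0⟩ := hev.exists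
  refine ⟨J, hJ0, ?_⟩
  have h8 : ‖(M⁻¹) ^ J‖₊ < 1 := by
    by_contra hcon
    push Not at hcon
    have h9 : (1 : ℝ≥0∞) ≤ (‖(M⁻¹) ^ J‖₊ : ℝ≥0∞) := by exact_mod_cast hcon
    have h10 : (1 : ℝ≥0∞) ≤ (‖(M⁻¹) ^ J‖₊ : ℝ≥0∞) ^ (1 / (J : ℝ)) := by
      apply ENNReal.one_le_rpow h9
      positivity
    exact absurd hJ (not_lt.mpr h10)
  have hmap : (M⁻¹) ^ J = (((Aᵀ)⁻¹) ^ J).map (algebraMap ℝ ℂ) := by
    have h11 : M⁻¹ = ((Aᵀ)⁻¹).map (algebraMap ℝ ℂ) := by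
      apply Matrix.inv_eq_right_inv
      rw [hM, ← Matrix.map_mul, Matrix.mul_nonsing_inv _ hUT]
      simp
    rw [h11]
    exact (map_pow (RingHom.mapMatrix (algebraMap ℝ ℂ)) ((Aᵀ)⁻¹) J).symm
  rw [hmap] at h8
  have h12 : ‖(((Aᵀ)⁻¹) ^ J).map (algebraMap ℝ ℂ)‖₊ = ‖((Aᵀ)⁻¹) ^ J‖₊ := by
    rw [Matrix.linfty_opNNNorm_def, Matrix.linfty_opNNNorm_def]
    simp
  rw [h12] at h8
  exact_mod_cast h8

theorem adapted_norm {n : ℕ} (A : Matrix (Fin n) (Fin n) ℝ) (hA : Expansive A) :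
    ∃ (N : Seminorm ℝ (Fin n → ℝ)) (κ : ℝ), (∀ x, N x = 0 → x = 0) ∧ 0 < κ ∧ κ < 1 ∧
      ∀ x, N x ≤ κ * N (Aᵀ *ᵥ x) := by
  rcases Nat.eq_zero_or_pos n with hn | hn
  · subst hn
    refine ⟨0, 1 / 2, fun x _ => Subsingleton.elim _ _, by norm_num, by norm_num, fun x => ?_⟩
    simp
  obtain ⟨J, hJ0, hJ⟩ := exists_pow_inv_norm_lt hn A hA
  have hdetA : A.det ≠ 0 := by
    intro h
    have := det_of_expansive hn A hA
    rw [h] at this; simp at this; linarith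
  have hUT : IsUnit (Aᵀ).det := by
    rw [Matrix.det_transpose]; exact isUnit_iff_ne_zero.mpr hdetA
  set C : Matrix (Fin n) (Fin n) ℝ := (Aᵀ)⁻¹ with hC
  set q : ℝ := max ‖C ^ J‖ (1 / 2) with hq
  have hq0 : 0 < q := lt_of_lt_of_le (by norm_num) (le_max_right _ _)
  have hq1 : q < 1 := max_lt hJ (by norm_num)
  set κ : ℝ := q ^ (1 / (J : ℝ)) with hκ
  have hκ0 : 0 < κ := Real.rpow_pos_of_pos hq0 _
  have hκ1 : κ < 1 := Real.rpow_lt_one hq0.le hq1 (by positivity)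
  have hκJ : κ ^ J = q := by
    rw [hκ, ← Real.rpow_natCast, ← Real.rpow_mul hq0.le]
    rw [one_div, inv_mul_cancel₀ (by positivity), Real.rpow_one]
  have hCJ : ∀ x, ‖(C ^ J) *ᵥ x‖ ≤ κ ^ J * ‖x‖ := by
    intro x
    calc ‖(C ^ J) *ᵥ x‖ ≤ ‖C ^ J‖ * ‖x‖ := Matrix.linfty_opNorm_mulVec _ _
      _ ≤ κ ^ J * ‖x‖ := by
        rw [hκJ]
        exact mul_le_mul_of_nonneg_right (le_max_left _ _) (norm_nonneg _)
  let N : Seminorm ℝ (Fin n → ℝ) := Seminorm.of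
    (fun x => ∑ j ∈ Finset.range J, (κ⁻¹) ^ j * ‖(C ^ j) *ᵥ x‖)
    (by
      intro x y
      rw [← Finset.sum_add_distrib]
      apply Finset.sum_le_sum
      intro j _
      rw [Matrix.mulVec_add, ← mul_add]
      exact mul_le_mul_of_nonneg_left (norm_add_le _ _) (by positivity))
    (by
      intro a x
      rw [Finset.mul_sum]
      apply Finset.sum_congr rfl
      intro j _
      rw [Matrix.mulVec_smul, norm_smul]
      ring)
  have hN : ∀ x, N x = ∑ j ∈ Finset.range J, (κ⁻¹) ^ j * ‖(C ^ j) *ᵥ x‖ := fun x => rfl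
  refine ⟨N, κ, ?_, hκ0, hκ1, ?_⟩
  · intro x hx
    rw [hN] at hx
    have h1 := (Finset.sum_eq_zero_iff_of_nonneg (fun j _ => by positivity)).mp hx 0
      (Finset.mem_range.mpr hJ0)
    simpa using h1
  · intro x
    rw [hN, hN]
    obtain ⟨m, rfl⟩ : ∃ m, J = m + 1 := ⟨J - 1, by omega⟩
    have hshift : ∀ j : ℕ, (C ^ (j + 1)) *ᵥ (Aᵀ *ᵥ x) = (C ^ j) *ᵥ x := by
      intro j
      rw [Matrix.mulVec_mulVec, pow_succ, Matrix.mul_assoc, hC, Matrix.nonsing_inv_mul _ hUT,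
        Matrix.mul_one]
    rw [Finset.sum_range_succ, Finset.sum_range_succ' (fun j => κ⁻¹ ^ j * ‖C ^ j *ᵥ Aᵀ *ᵥ x‖) m]
    rw [mul_add, Finset.mul_sum]
    have h2 : ∑ i ∈ Finset.range m, κ * (κ⁻¹ ^ (i + 1) * ‖C ^ (i + 1) *ᵥ Aᵀ *ᵥ x‖) =
        ∑ i ∈ Finset.range m, κ⁻¹ ^ i * ‖C ^ i *ᵥ x‖ := by
      apply Finset.sum_congr rfl
      intro i _
      rw [hshift, pow_succ]
      field_simp
    rw [h2]
    have h3 : κ⁻¹ ^ m * ‖C ^ m *ᵥ x‖ ≤ κ * ‖Aᵀ *ᵥ x‖ := by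
      have h4 := hCJ (Aᵀ *ᵥ x)
      rw [hshift m] at h4
      calc κ⁻¹ ^ m * ‖C ^ m *ᵥ x‖ ≤ κ⁻¹ ^ m * (κ ^ (m + 1) * ‖Aᵀ *ᵥ x‖) :=
            mul_le_mul_of_nonneg_left h4 (by positivity)
        _ = κ * ‖Aᵀ *ᵥ x‖ := by
            have h5 : κ⁻¹ ^ m * κ ^ m = 1 := by
              rw [← mul_pow, inv_mul_cancel₀ hκ0.ne', one_pow]
            rw [pow_succ]
            calc κ⁻¹ ^ m * (κ ^ m * κ * ‖Aᵀ *ᵥ x‖) = (κ⁻¹ ^ m * κ ^ m) * (κ * ‖Aᵀ *ᵥ x‖) := by ring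
              _ = κ * ‖Aᵀ *ᵥ x‖ := by rw [h5, one_mul]
    simp only [pow_zero, Matrix.one_mulVec, one_mul]
    linarith

end Pool.Agent.Helper54.Wav
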